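import Pool.Agent.H16.LP.Cpl
import Pool.Agent.H64.CHN.Law

/-!
# Frames which are functions of the time and of one coordinate, with a relation along the lines

A law of samples (a line and a point on it). `b` are the data of the point, `L` the data of the line,
`t` the time, `c` the direction, `M` and `J` functions of `b` (frames). Two samples with the same `b`
are two lines through one point, two samples with the same `L` are two points on one line.

`Rel.few`: if the data `b` are as few as the pairs of the time and of one coordinate, two lines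
determine the point in which they meet, and `M` at the point of `L₁` and `L₂` is few bits given `L₁`,
the direction of `L₂` and a third line `L₃` which meets `L₂`, then the frames are few bits given `L`,
so they are few bits given the record `Z`, because neighbouring lines are independent.
-/

set_option autoImplicit false

namespace Pool.REL17

open Finset Real
open Pool.Agent.H49.Ent Pool.Agent.H32.Dense Pool.STK Pool.POT
open Pool.LPX (q3 q3_nonneg q3_12 q3_3 q3_1 q3_2 q3_law q3_pos hZ3)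

variable {Ω ζ β Λ τ κ κ' μ ι : Type} [Fintype Ω]

/-- Four samples: `L₁`, `L₂` through one point, a second point of `L₂`, a line `L₃` through it. -/
noncomputable def q4 (p : Ω → ℝ) (b : Ω → β) (L : Ω → Λ) : ((Ω × Ω) × Ω) × Ω → ℝ :=
  glue (q3 p b L) p (fun w => b w.2) b

section

variable {p : Ω → ℝ} {b : Ω → β} {L : Ω → Λ}

theorem hZ4 (hp : ∀ ω, 0 ≤ p ω) (z : β) : law (q3 p b L) (fun w => b w.2) z = law p b z :=
  (q3_3 hp).law b z

theorem q4_nonneg (hp : ∀ ω, 0 ≤ p ω) (w : ((Ω × Ω) × Ω) × Ω) : 0 ≤ q4 p b L w :=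
  glue_nonneg (q3_nonneg hp) hp w

theorem q4_fst (hp : ∀ ω, 0 ≤ p ω) : Im (q4 p b L) (q3 p b L) Prod.fst :=
  im_fst (q3_nonneg hp) (hZ4 hp)

theorem q4_1 (hp : ∀ ω, 0 ≤ p ω) : Im (q4 p b L) p (fun w => w.1.1.1) :=
  (q3_1 hp).comp (q4_fst hp)

theorem q4_2 (hp : ∀ ω, 0 ≤ p ω) : Im (q4 p b L) p (fun w => w.1.1.2) :=
  (q3_2 hp).comp (q4_fst hp)

theorem q4_3 (hp : ∀ ω, 0 ≤ p ω) : Im (q4 p b L) p (fun w => w.1.2) :=
  (q3_3 hp).comp (q4_fst hp)

theorem q4_4 (hp : ∀ ω, 0 ≤ p ω) : Im (q4 p b L) p Prod.snd := im_snd hp (hZ4 hp)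

theorem q4_34 (hp : ∀ ω, 0 ≤ p ω) : Im (q4 p b L) (dbl p b) (fun w => (w.1.2, w.2)) :=
  Pool.CHN.im_glue_map (q3_3 hp) b b

theorem q4_law (hp : IsLaw p) : IsLaw (q4 p b L) :=
  (q4_4 hp.nonneg).isLaw (q4_nonneg hp.nonneg) hp

theorem q4_pos (hp : ∀ ω, 0 ≤ p ω) {w : ((Ω × Ω) × Ω) × Ω} (h : 0 < q4 p b L w) :
    (0 < p w.1.1.1 ∧ 0 < p w.1.1.2 ∧ 0 < p w.1.2 ∧ 0 < p w.2) ∧
      b w.1.1.1 = b w.1.1.2 ∧ L w.1.1.2 = L w.1.2 ∧ b w.1.2 = b w.2 := by
  obtain ⟨h1, h2, h3⟩ := (glue_pos_iff (q3_nonneg hp) hp w).1 h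
  obtain ⟨h4, h5, h6, h7, h8⟩ := q3_pos hp h1
  exact ⟨⟨h4, h5, h6, h2⟩, h7, h8, h3⟩

end

/-- Functions of two nearly independent variables are few. -/
theorem gen_few {S T U V : Type} {q : Ω → ℝ} (hq : ∀ ω, 0 ≤ q ω) (X : Ω → S) (A : Ω → T)
    (B : Ω → U) (W : Ω → V) :
    CH q X W ≤ MI q A B W + CH q X (fun ω => (A ω, W ω)) + CH q X (fun ω => (B ω, W ω)) := by
  have h1 : MI q X B W ≤ MI q (fun ω => (A ω, X ω)) B W :=
    MI_le_left hq fun ω ω' _ _ e => by
      simp only [Prod.mk.injEq] at e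
      exact e.1.2
  rw [MI_chain_left hq] at h1
  have h2 := MI_le_CH hq X B (fun ω => (A ω, W ω))
  have h3 : MI q X B W = CH q X W - CH q X (fun ω => (B ω, W ω)) := rfl
  linarith

/-- **The data of a net of points and lines.** -/
structure Net (p : Ω → ℝ) (Z : Ω → ζ) (b : Ω → β) (L : Ω → Λ) (t : Ω → τ) (J : Ω → ι)
    (q e : ℝ) : Prop where
  law : IsLaw p
  bZ : Det p b Z
  LZ : Det p L Z
  bt : Det p b t
  bJ : Det p b J
  e0 : 0 ≤ e
  tf : q - e ≤ CH p t L
  bu : CH p b Z ≤ 2 * q + e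
  cr : CH (dbl p b) (fun w => b w.1) (fun w => (L w.1, L w.2)) ≤ e

/-- **The data of a relation.** -/
structure Rel (p : Ω → ℝ) (Z : Ω → ζ) (b : Ω → β) (L : Ω → Λ) (t : Ω → τ) (c : Ω → κ)
    (c' : Ω → κ') (M : Ω → μ) (J : Ω → ι) (q e : ℝ) : Prop extends Net p Z b L t J q e where
  fr : MI p c b Z ≤ e
  mt : CH p M (fun ω => (t ω, L ω)) ≤ e
  ch : CH (q4 p b L) (fun w => M w.1.1.1) (fun w => (c w.1.1.2, (L w.1.1.1, L w.2))) ≤ e
  jm : CH p J (fun ω => (M ω, L ω)) ≤ e
  cj : CH (dbl p L) (fun w => c' w.1) (fun w => ((J w.1, J w.2), Z w.1)) ≤ e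

namespace Net

variable {p : Ω → ℝ} {Z : Ω → ζ} {b : Ω → β} {L : Ω → Λ} {t : Ω → τ} {J : Ω → ι} {q e : ℝ}

section

variable (H : Net p Z b L t J q e)
include H

theorem pos2 {w : Ω × Ω} (h : 0 < dbl p b w) : 0 < p w.1 ∧ 0 < p w.2 ∧ b w.1 = b w.2 :=
  (glue_pos_iff H.law.nonneg H.law.nonneg w).1 h

theorem posL {w : Ω × Ω} (h : 0 < dbl p L w) : 0 < p w.1 ∧ 0 < p w.2 ∧ L w.1 = L w.2 :=
  (glue_pos_iff H.law.nonneg H.law.nonneg w).1 h

theorem tb : q - e ≤ CH p b L :=
  H.tf.trans (CH_mono_left H.law.nonneg fun ω ω' a b' h =>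
    H.bt ω ω' a b' (Prod.ext_iff.mp h).1)

/-- The number of the lines. -/
theorem lines : CH p L Z ≤ CH p b L + CH p L b - 4 * (CH p b L - q) + 2 * (CH p b L - q) + e := by
  have hp := H.law.nonneg
  have h1 := CH_chain hp L b Z
  have h2 := CH_chain hp b L Z
  have h3 : CH p (fun ω => (L ω, b ω)) Z = CH p (fun ω => (b ω, L ω)) Z :=
    CH_congr hp (fun _ _ _ _ e => by simp only [Prod.mk.injEq] at e ⊢; tauto)
      (fun _ _ _ _ e => by simp only [Prod.mk.injEq] at e ⊢; tauto) (fun _ _ _ _ e => e)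
      (fun _ _ _ _ e => e)
  have h4 : CH p L (fun ω => (b ω, Z ω)) = CH p L b :=
    CH_congr hp (fun _ _ _ _ e => (Prod.ext_iff.mp e).1) (fun _ _ _ _ e => (Prod.ext_iff.mp e).1)
      (fun _ _ _ _ e => (Prod.ext_iff.mp e).1) (fun ω ω' a b' e => Prod.ext e (H.bZ ω ω' a b' e))
  have h5 : CH p b (fun ω => (L ω, Z ω)) = CH p b L :=
    CH_congr hp (fun _ _ _ _ e => (Prod.ext_iff.mp e).1) (fun _ _ _ _ e => (Prod.ext_iff.mp e).1)
      (fun _ _ _ _ e => (Prod.ext_iff.mp e).1) (fun ω ω' a b' e => Prod.ext e (H.LZ ω ω' a b' e))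
  have h6 := H.bu
  linarith

/-- **Neighbouring lines are independent**, also given data which precede the first one. -/
theorem ind {S : Type} (V : Ω × Ω → S) :
    CH p L Z - 4 * e ≤ CH (q4 p b L) (fun w => L w.2) (fun w => (L w.1.2, V w.1.1)) := by
  have hp := H.law.nonneg
  have hR := q4_nonneg (b := b) (L := L) hp
  have h1 := CH_chain hR (fun w => L w.2) (fun w => b w.2) (fun w => (L w.1.2, V w.1.1))
  have h2 := CH_chain hR (fun w => b w.2) (fun w => L w.2) (fun w => (L w.1.2, V w.1.1))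
  have h3 : CH (q4 p b L) (fun w => (L w.2, b w.2)) (fun w => (L w.1.2, V w.1.1)) =
      CH (q4 p b L) (fun w => (b w.2, L w.2)) (fun w => (L w.1.2, V w.1.1)) :=
    CH_congr hR (fun _ _ _ _ e => by simp only [Prod.mk.injEq] at e ⊢; tauto)
      (fun _ _ _ _ e => by simp only [Prod.mk.injEq] at e ⊢; tauto) (fun _ _ _ _ e => e)
      (fun _ _ _ _ e => e)
  -- the line given the point and the past
  have h4 : CH (q4 p b L) (fun w => L w.2) (fun w => (b w.2, (L w.1.2, V w.1.1))) = CH p L b :=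
    CH_glue_snd (p₁ := q3 p b L) (p₂ := p) (Z₁ := fun w => b w.2) (Z₂ := b)
      (q3_nonneg hp) hp (hZ4 hp) L (Y := b) (fun w => (L w.2, V w.1)) (fun _ _ _ _ e => e)
  -- the point given the line and the past
  have h5 : CH (q4 p b L) (fun w => b w.2) (fun w => (L w.1.2, V w.1.1)) = CH p b L := by
    have e1 : CH (q4 p b L) (fun w => b w.2) (fun w => (L w.1.2, V w.1.1)) =
        CH (q4 p b L) (fun w => b w.1.2) (fun w => (L w.1.2, V w.1.1)) := by
      refine CH_congr hR ?_ ?_ (fun _ _ _ _ e => e) (fun _ _ _ _ e => e)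
      · intro w w' a a' e
        have := (Prod.ext_iff.mp e).1
        obtain ⟨-, -, -, k1⟩ := q4_pos hp a
        obtain ⟨-, -, -, k2⟩ := q4_pos hp a'
        beta_reduce
        rw [k1, k2]
        exact this
      · intro w w' a a' e
        have := (Prod.ext_iff.mp e).1
        obtain ⟨-, -, -, k1⟩ := q4_pos hp a
        obtain ⟨-, -, -, k2⟩ := q4_pos hp a'
        beta_reduce
        rw [← k1, ← k2]
        exact this
    rw [e1]
    have e2 := (q4_fst (b := b) (L := L) hp).CH (fun w => b w.2) (fun w => (L w.2, V w.1))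
    rw [e2]
    exact CH_glue_snd (p₁ := dbl p b) (p₂ := p) (Z₁ := fun w => L w.2) (Z₂ := L)
      (dbl_nonneg hp) hp (hZ3 hp) b (Y := L) V (fun _ _ _ _ e => e)
  -- the crossing
  have h6 : CH (q4 p b L) (fun w => b w.2) (fun w => (L w.2, (L w.1.2, V w.1.1))) ≤ e := by
    have e1 : CH (q4 p b L) (fun w => b w.2) (fun w => (L w.2, (L w.1.2, V w.1.1))) ≤
        CH (q4 p b L) (fun w => b w.1.2) (fun w => (L w.1.2, L w.2)) := by
      have e2 : CH (q4 p b L) (fun w => b w.2) (fun w => (L w.2, (L w.1.2, V w.1.1))) ≤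
          CH (q4 p b L) (fun w => b w.1.2) (fun w => (L w.2, (L w.1.2, V w.1.1))) := by
        refine CH_mono_left hR ?_
        intro w w' a a' e
        have := (Prod.ext_iff.mp e).1
        obtain ⟨-, -, -, k1⟩ := q4_pos hp a
        obtain ⟨-, -, -, k2⟩ := q4_pos hp a'
        beta_reduce
        rw [← k1, ← k2]
        exact this
      refine e2.trans (CH_mono_cond hR ?_)
      intro w w' _ _ e
      simp only [Prod.mk.injEq] at e ⊢
      exact ⟨e.2.1, e.1⟩
    refine e1.trans (le_trans (le_of_eq ?_) H.cr)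
    exact (q4_34 (b := b) (L := L) hp).CH (fun w => b w.1) (fun w => (L w.1, L w.2))
  have h7 := H.lines
  have h8 := H.tb
  linarith

/-- The same for two lines. -/
theorem ind2 : CH p L Z - 4 * e ≤ CH (dbl p b) (fun w => L w.2) (fun w => L w.1) := by
  have hp := H.law.nonneg
  have h1 := H.ind (V := fun _ => ())
  have h2 := (q4_34 (b := b) (L := L) hp).CH (fun w => L w.2) (fun w => L w.1)
  rw [← h2]
  refine h1.trans (le_of_eq (CH_congr (q4_nonneg hp) (fun _ _ _ _ e => (Prod.ext_iff.mp e).1)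
    (fun _ _ _ _ e => (Prod.ext_iff.mp e).1) (fun _ _ _ _ e => ?_) (fun _ _ _ _ e => ?_)))
  · exact (Prod.ext_iff.mp e).1
  · exact Prod.ext e rfl

/-- All samples of a chain have the same record. -/
theorem zz {w : ((Ω × Ω) × Ω) × Ω} (h : 0 < q4 p b L w) :
    Z w.1.1.1 = Z w.1.1.2 ∧ Z w.1.1.2 = Z w.1.2 ∧ Z w.1.2 = Z w.2 := by
  obtain ⟨⟨h1, h2, h3, h4⟩, h5, h6, h7⟩ := q4_pos H.law.nonneg h
  exact ⟨H.bZ _ _ h1 h2 h5, H.LZ _ _ h2 h3 h6, H.bZ _ _ h3 h4 h7⟩

/-- The last line given some of the past. -/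
theorem last {S : Type} (V : (Ω × Ω) × Ω → S)
    (hV : Det (q4 p b L) (fun w => (L w.1.2, w.1.1)) (fun w => V w.1)) :
    CH p L Z - 4 * e ≤ CH (q4 p b L) (fun w => L w.2) (fun w => V w.1) :=
  (H.ind (V := fun w => w)).trans (CH_mono_cond (q4_nonneg H.law.nonneg) hV)

theorem last_le {S : Type} (V : ((Ω × Ω) × Ω) × Ω → S)
    (hV : Det (q4 p b L) V (fun w => L w.1.1.1)) :
    CH (q4 p b L) (fun w => L w.2) V ≤ CH p L Z := by
  have hp := H.law.nonneg
  rw [← (q4_4 (b := b) (L := L) hp).CH L Z]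
  refine CH_mono_cond (q4_nonneg hp) ?_
  intro w w' a a' e
  have h1 := hV w w' a a' e
  obtain ⟨⟨k1, -⟩, -⟩ := q4_pos hp a
  obtain ⟨⟨k2, -⟩, -⟩ := q4_pos hp a'
  have h2 := H.LZ _ _ k1 k2 h1
  obtain ⟨a1, a2, a3⟩ := H.zz a
  obtain ⟨b1, b2, b3⟩ := H.zz a'
  beta_reduce
  rw [← a3, ← a2, ← a1, ← b3, ← b2, ← b1]
  exact h2

/-- **Few bits given the line, few bits given the record.** -/
theorem jZ {d : ℝ} (hd : CH p J L ≤ d) : CH p J Z ≤ 4 * e + 2 * d := by
  have hp := H.law.nonneg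
  have hQ := dbl_nonneg (b := b) hp
  have h1 := gen_few hQ (fun w => J w.1) (fun w => L w.1) (fun w => L w.2) (fun w => Z w.1)
  have i1 : Im (dbl p b) p (fun w => w.1) := im_fst hp fun _ => rfl
  have i2 : Im (dbl p b) p (fun w => w.2) := im_snd hp fun _ => rfl
  have h2 : CH (dbl p b) (fun w => J w.1) (fun w => (L w.1, Z w.1)) ≤ d := by
    rw [i1.CH J (fun ω => (L ω, Z ω))]
    exact (CH_mono_cond hp fun _ _ _ _ e => (Prod.ext_iff.mp e).1).trans hd
  have h3 : CH (dbl p b) (fun w => J w.1) (fun w => (L w.2, Z w.1)) ≤ d := by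
    have g1 : CH (dbl p b) (fun w => J w.1) (fun w => (L w.2, Z w.1)) ≤
        CH (dbl p b) (fun w => J w.2) (fun w => (L w.2, Z w.1)) := by
      refine CH_mono_left hQ ?_
      intro w w' a a' e
      obtain ⟨k1, k2, k3⟩ := H.pos2 a
      obtain ⟨k4, k5, k6⟩ := H.pos2 a'
      beta_reduce
      rw [H.bJ _ _ k1 k2 k3, H.bJ _ _ k4 k5 k6]
      exact (Prod.ext_iff.mp e).1
    refine g1.trans ?_
    refine (CH_mono_cond hQ fun _ _ _ _ e => (Prod.ext_iff.mp e).1).trans ?_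
    rw [i2.CH J L]
    exact hd
  have h4 : MI (dbl p b) (fun w => L w.1) (fun w => L w.2) (fun w => Z w.1) ≤ 4 * e := by
    rw [MI_symm hQ]
    unfold MI
    have g1 : CH (dbl p b) (fun w => L w.2) (fun w => Z w.1) ≤ CH p L Z := by
      rw [← i2.CH L Z]
      refine CH_mono_cond hQ ?_
      intro w w' a a' e
      obtain ⟨k1, k2, k3⟩ := H.pos2 a
      obtain ⟨k4, k5, k6⟩ := H.pos2 a'
      beta_reduce
      rw [← H.bZ _ _ k1 k2 k3, ← H.bZ _ _ k4 k5 k6]
      exact e
    have g2 : CH (dbl p b) (fun w => L w.2) (fun w => L w.1) ≤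
        CH (dbl p b) (fun w => L w.2) (fun w => (L w.1, Z w.1)) := by
      refine CH_mono_cond hQ ?_
      intro w w' a a' e
      obtain ⟨k1, -, -⟩ := H.pos2 a
      obtain ⟨k4, -, -⟩ := H.pos2 a'
      exact Prod.ext e (H.LZ _ _ k1 k4 e)
    linarith [H.ind2]
  have h5 := i1.CH J Z
  beta_reduce at h5
  linarith

/-- **The direction is few bits given the record**, if the frames are few bits given the line and the
direction is few bits given the frames at two points of the line. -/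
theorem few {d d' : ℝ} (hd : CH p J L ≤ d) {c' : Ω → κ'}
    (cj : CH (dbl p L) (fun w => c' w.1) (fun w => ((J w.1, J w.2), Z w.1)) ≤ d') :
    CH p c' Z ≤ 8 * e + 4 * d + d' := by
  have hp := H.law.nonneg
  have hQ := dbl_nonneg (b := L) hp
  have i1 : Im (dbl p L) p (fun w => w.1) := im_fst hp fun _ => rfl
  have i2 : Im (dbl p L) p (fun w => w.2) := im_snd hp fun _ => rfl
  have h1 := CH_le_add hQ (fun w => c' w.1) (fun w => (J w.1, J w.2)) (fun w => Z w.1)
  have h2 := CH_subadd hQ (fun w => J w.1) (fun w => J w.2) (fun w => Z w.1)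
  have h3 : CH (dbl p L) (fun w => J w.1) (fun w => Z w.1) = CH p J Z := i1.CH J Z
  have h4 : CH (dbl p L) (fun w => J w.2) (fun w => Z w.1) ≤ CH p J Z := by
    rw [← i2.CH J Z]
    refine CH_mono_cond hQ ?_
    intro w w' a a' e
    obtain ⟨k1, k2, k3⟩ := H.posL a
    obtain ⟨k4, k5, k6⟩ := H.posL a'
    beta_reduce
    rw [← H.LZ _ _ k1 k2 k3, ← H.LZ _ _ k4 k5 k6]
    exact e
  have h5 : CH (dbl p L) (fun w => c' w.1) (fun w => Z w.1) = CH p c' Z := i1.CH c' Z
  linarith [H.jZ hd]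

end

end Net

namespace Rel

variable {p : Ω → ℝ} {Z : Ω → ζ} {b : Ω → β} {L : Ω → Λ} {t : Ω → τ} {c : Ω → κ}
  {c' : Ω → κ'} {M : Ω → μ} {J : Ω → ι} {q e : ℝ}

section

variable (H : Rel p Z b L t c c' M J q e)
include H

/-- **The time and the direction of the second line are independent** given the outer lines. -/
theorem tc : MI (q4 p b L) (fun w => t w.1.1.1) (fun w => c w.1.1.2)
    (fun w => (L w.1.1.1, L w.2)) ≤ 5 * e := by
  have hp := H.law.nonneg
  have hR := q4_nonneg (b := b) (L := L) hp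
  rw [MI_symm hR]
  unfold MI
  -- above
  have h1 : CH (q4 p b L) (fun w => c w.1.1.2) (fun w => (L w.1.1.1, L w.2)) ≤ CH p c Z := by
    rw [← (q4_2 (b := b) (L := L) hp).CH c Z]
    refine CH_mono_cond hR ?_
    intro w w' a a' e
    obtain ⟨⟨k1, -⟩, -⟩ := q4_pos hp a
    obtain ⟨⟨k2, -⟩, -⟩ := q4_pos hp a'
    have h2 := H.LZ _ _ k1 k2 (Prod.ext_iff.mp e).1
    beta_reduce
    rw [← (H.zz a).1, ← (H.zz a').1]
    exact h2
  -- the third line
  have h2 : CH (q4 p b L) (fun w => c w.1.1.2) (fun w => (t w.1.1.1, L w.1.1.1)) - 4 * e ≤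
      CH (q4 p b L) (fun w => c w.1.1.2) (fun w => (t w.1.1.1, (L w.1.1.1, L w.2))) := by
    have e1 : MI (q4 p b L) (fun w => L w.2) (fun w => c w.1.1.2)
        (fun w => (t w.1.1.1, L w.1.1.1)) ≤ 4 * e := by
      unfold MI
      have g1 := H.last_le (V := fun w => (t w.1.1.1, L w.1.1.1))
        (fun _ _ _ _ e => (Prod.ext_iff.mp e).2)
      have g2 := H.last (V := fun w => (c w.1.2, (t w.1.1, L w.1.1)))
        (fun w w' _ _ e => by
          have e2 : w.1.1 = w'.1.1 := (Prod.ext_iff.mp e).2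
          simp only [e2])
      linarith
    rw [MI_symm hR] at e1
    unfold MI at e1
    have e3 : CH (q4 p b L) (fun w => c w.1.1.2) (fun w => (L w.2, (t w.1.1.1, L w.1.1.1))) =
        CH (q4 p b L) (fun w => c w.1.1.2) (fun w => (t w.1.1.1, (L w.1.1.1, L w.2))) :=
      CH_congr hR (fun _ _ _ _ e => (Prod.ext_iff.mp e).1) (fun _ _ _ _ e => (Prod.ext_iff.mp e).1)
        (fun _ _ _ _ e => by simp only [Prod.mk.injEq] at e ⊢; tauto)
        (fun _ _ _ _ e => by simp only [Prod.mk.injEq] at e ⊢; tauto)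
    linarith
  -- below
  have h3 : CH p c b ≤
      CH (q4 p b L) (fun w => c w.1.1.2) (fun w => (t w.1.1.1, L w.1.1.1)) := by
    have e1 := (q3_12 (B := b) (ln := L) hp).comp (q4_fst (b := b) (L := L) hp)
    have e2 := e1.CH (fun w => c w.2) (fun w => (t w.1, L w.1))
    rw [e2]
    have e3 : CH (dbl p b) (fun w => c w.2) (fun w => (b w.2, L w.1)) = CH p c b :=
      CH_glue_snd (p₁ := p) (p₂ := p) (Z₁ := b) (Z₂ := b) hp hp (fun _ => rfl) c (Y := b) L
        (fun _ _ _ _ e => e)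
    rw [← e3]
    refine CH_mono_cond (dbl_nonneg hp) ?_
    intro w w' a a' e
    simp only [Prod.mk.injEq] at e ⊢
    obtain ⟨k1, k2, k3⟩ := H.pos2 a
    obtain ⟨k4, k5, k6⟩ := H.pos2 a'
    exact ⟨H.bt _ _ k1 k4 (by rw [k3, k6]; exact e.1), e.2⟩
  have h4 := H.fr
  unfold MI at h4
  have h5 : CH p c (fun ω => (b ω, Z ω)) = CH p c b :=
    CH_congr hp (fun _ _ _ _ e => (Prod.ext_iff.mp e).1) (fun _ _ _ _ e => (Prod.ext_iff.mp e).1)
      (fun _ _ _ _ e => (Prod.ext_iff.mp e).1) (fun ω ω' a b' e => Prod.ext e (H.bZ ω ω' a b' e))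
  linarith

/-- **The frames are few bits given the line.** -/
theorem mL : CH p M L ≤ 11 * e := by
  have hp := H.law.nonneg
  have hR := q4_nonneg (b := b) (L := L) hp
  have h1 := gen_few hR (fun w => M w.1.1.1) (fun w => t w.1.1.1) (fun w => c w.1.1.2)
    (fun w => (L w.1.1.1, L w.2))
  have h2 := H.tc
  have h3 := H.ch
  have h4 : CH (q4 p b L) (fun w => M w.1.1.1)
      (fun w => (t w.1.1.1, (L w.1.1.1, L w.2))) ≤ e := by
    refine le_trans ?_ H.mt
    rw [← (q4_1 (b := b) (L := L) hp).CH M (fun ω => (t ω, L ω))]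
    refine CH_mono_cond hR ?_
    intro w w' _ _ e
    simp only [Prod.mk.injEq] at e ⊢
    exact ⟨e.1, e.2.1⟩
  -- the third line
  have h5 : MI (q4 p b L) (fun w => L w.2) (fun w => M w.1.1.1) (fun w => L w.1.1.1) ≤ 4 * e := by
    unfold MI
    have g1 := H.last_le (V := fun w => L w.1.1.1) (fun _ _ _ _ e => e)
    have g2 := H.last (V := fun w => (M w.1.1, L w.1.1))
      (fun w w' _ _ e => by
        have e2 : w.1.1 = w'.1.1 := (Prod.ext_iff.mp e).2
        simp only [e2])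
    linarith
  rw [MI_symm hR] at h5
  unfold MI at h5
  have h6 : CH (q4 p b L) (fun w => M w.1.1.1) (fun w => (L w.2, L w.1.1.1)) =
      CH (q4 p b L) (fun w => M w.1.1.1) (fun w => (L w.1.1.1, L w.2)) :=
    CH_congr hR (fun _ _ _ _ e => (Prod.ext_iff.mp e).1) (fun _ _ _ _ e => (Prod.ext_iff.mp e).1)
      (fun _ _ _ _ e => by simp only [Prod.mk.injEq] at e ⊢; tauto)
      (fun _ _ _ _ e => by simp only [Prod.mk.injEq] at e ⊢; tauto)
  have h7 := (q4_1 (b := b) (L := L) hp).CH M L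
  beta_reduce at h7
  linarith

theorem jL : CH p J L ≤ 12 * e := by
  have h1 := CH_le_add H.law.nonneg J M L
  linarith [H.mL, H.jm]

/-- **The direction is few bits given the record.** -/
theorem few : CH p c' Z ≤ 57 * e := by
  have h1 := H.toNet.few H.jL H.cj
  linarith [H.e0]

end

end Rel

end Pool.REL17
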